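import Pool.Agent.Helper27.BEL.Defs

/-!
BEL2: a far pair of vertices with forced equal or different colours in a constraint hypergraph.
-/

set_option autoImplicit false

namespace Pool.Agent.Helper5.BEL

open Pool.Agent.Helper27.BEL

section aux

variable {t : ℕ}

/-- the construction of the instance by identifying the vertices of one hyperedge -/
theorem far_aux (ρ : Set (Fin t → Bool)) (m : ℕ) (hm : 1 ≤ m) (K : Inst t)
    (hK : K.TwoLeaf (m + 1)) (C1 : Finset K.I) (i0 : K.I) (hi0 : i0 ∉ C1)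
    (cl : Fin t → Bool) (a0 a1 : Fin t) (h0 : cl a0 = false) (h1 : cl a1 = true)
    (χ1 : K.Z → Bool) (hχ1 : ∀ i ∈ C1, (fun a => χ1 (K.e i a)) ∈ ρ)
    (hcl : ∀ a a', cl a = cl a' → χ1 (K.e i0 a) = χ1 (K.e i0 a')) (β : Bool)
    (hforce : ∀ p q : Bool, (∃ χ : K.Z → Bool, (∀ i ∈ C1, (fun a => χ (K.e i a)) ∈ ρ) ∧
      ∀ a, χ (K.e i0 a) = if cl a = true then q else p) → (p = q ↔ β = true)) :
    ∃ (A : Inst t) (u w : A.Z) (β : Bool), A.FarPair m u w ∧ (∃ χ, A.Sat ρ χ) ∧
      ∀ χ, A.Sat ρ χ → (χ u = χ w ↔ β = true) := by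
  classical
  set u : K.Z := K.e i0 a0 with hu
  set w : K.Z := K.e i0 a1 with hw
  let π : K.Z → K.Z := fun z =>
    if ∃ a, K.e i0 a = z ∧ cl a = false then u else if ∃ a, K.e i0 a = z ∧ cl a = true then w else z
  have hπ0 : ∀ a, cl a = false → π (K.e i0 a) = u := by
    intro a ha
    show (if ∃ a', K.e i0 a' = K.e i0 a ∧ cl a' = false then u else _) = u
    rw [if_pos ⟨a, rfl, ha⟩]
  have hπ1 : ∀ a, cl a = true → π (K.e i0 a) = w := by
    intro a ha
    show (if ∃ a', K.e i0 a' = K.e i0 a ∧ cl a' = false then u else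
      if ∃ a', K.e i0 a' = K.e i0 a ∧ cl a' = true then w else K.e i0 a) = w
    rw [if_neg, if_pos ⟨a, rfl, ha⟩]
    rintro ⟨a', h2, h3⟩
    rw [K.inj i0 h2, ha] at h3
    exact absurd h3 (by decide)
  have hπn : ∀ z, (∀ a, K.e i0 a ≠ z) → π z = z := by
    intro z hz
    show (if ∃ a', K.e i0 a' = z ∧ cl a' = false then u else
      if ∃ a', K.e i0 a' = z ∧ cl a' = true then w else z) = z
    rw [if_neg, if_neg]
    · rintro ⟨a', h2, -⟩
      exact hz a' h2
    · rintro ⟨a', h2, -⟩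
      exact hz a' h2
  -- values of `π` on `i0` are on `i0`
  have hπon : ∀ a, ∃ b, K.e i0 b = π (K.e i0 a) := by
    intro a
    rcases h : cl a with _ | _
    · exact ⟨a0, (hπ0 a h).symm⟩
    · exact ⟨a1, (hπ1 a h).symm⟩
  have hπon' : ∀ z b, π z = K.e i0 b → ∃ a, K.e i0 a = z := by
    intro z b hz
    by_contra hcon
    push Not at hcon
    rw [hπn z hcon] at hz
    exact hcon b hz.symm
  have hπinj : ∀ x y, π x = π y → x = y ∨ ((∃ a, K.e i0 a = x) ∧ ∃ a, K.e i0 a = y) := by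
    intro x y hxy
    by_cases hx : ∃ a, K.e i0 a = x
    · right
      refine ⟨hx, ?_⟩
      obtain ⟨a, rfl⟩ := hx
      obtain ⟨b, hb⟩ := hπon a
      exact hπon' y b (by rw [← hxy, hb])
    · by_cases hy : ∃ a, K.e i0 a = y
      · exfalso
        obtain ⟨a, rfl⟩ := hy
        obtain ⟨b, hb⟩ := hπon a
        exact hx (hπon' x b (by rw [hxy, hb]))
      · left
        push Not at hx hy
        rwa [hπn x hx, hπn y hy] at hxy
  have hχπ : ∀ z, χ1 (π z) = χ1 z := by
    intro z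
    by_cases hz : ∃ a, K.e i0 a = z
    · obtain ⟨a, rfl⟩ := hz
      rcases h : cl a with _ | _
      · rw [hπ0 a h, hu]
        exact hcl a0 a (by rw [h0, h])
      · rw [hπ1 a h, hw]
        exact hcl a1 a (by rw [h1, h])
    · push Not at hz
      rw [hπn z hz]
  have hne : ∀ i ∈ C1, i0 ≠ i := fun i hi h => hi0 (h ▸ hi)
  -- a leaf of a collection containing `i0` has at most one vertex on `i0`
  have honly : ∀ i ∈ C1, ∀ a b, (∃ c, K.e i0 c = K.e i a) → (∃ c, K.e i0 c = K.e i b) → a = b := by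
    intro i hi a b ha hb
    have hcard : ({i, i0} : Finset K.I).card = 2 := Finset.card_pair (hne i hi).symm
    obtain ⟨j, hj, j', hj', hjj, hl, hl'⟩ := hK {i, i0} (by rw [hcard]) (by rw [hcard]; omega)
    have hleaf : K.Leaf {i, i0} i := by
      rw [Finset.mem_insert, Finset.mem_singleton] at hj hj'
      rcases hj with rfl | rfl
      · exact hl
      · rcases hj' with rfl | rfl
        · exact hl'
        · exact absurd rfl hjj
    have hi0mem : i0 ∈ ({i, i0} : Finset K.I) := by simp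
    exact hleaf a b ⟨i0, hi0mem, hne i hi, ha⟩ ⟨i0, hi0mem, hne i hi, hb⟩
  let A : Inst t :=
    { Z := K.Z
      I := {i : K.I // i ∈ C1}
      fZ := inferInstance
      dZ := inferInstance
      fI := inferInstance
      dI := inferInstance
      e := fun i a => π (K.e i.1 a)
      inj := by
        intro i a b hab
        rcases hπinj _ _ hab with h | ⟨ha, hb⟩
        · exact K.inj i.1 h
        · exact honly i.1 i.2 a b ha hb }
  have huw : u ≠ w := by
    intro h
    have := K.inj i0 h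
    rw [this, h1] at h0
    exact absurd h0 (by decide)
  refine ⟨A, u, w, β, ⟨huw, ?_⟩, ⟨χ1, ?_⟩, ?_⟩
  · intro S hS hSm
    let S' : Finset K.I := insert i0 (S.map (Function.Embedding.subtype _))
    have hnot : i0 ∉ S.map (Function.Embedding.subtype _) := by
      intro h
      rw [Finset.mem_map] at h
      obtain ⟨⟨j, hj⟩, -, h2⟩ := h
      exact hne j hj h2.symm
    have hcard : S'.card = S.card + 1 := by
      rw [Finset.card_insert_of_notMem hnot, Finset.card_map]
    have hSpos := hS.card_pos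
    obtain ⟨j, hj, j', hj', hjj, hl, hl'⟩ := hK S' (by omega) (by omega)
    have hex : ∃ i : A.I, i ∈ S ∧ K.Leaf S' i.1 := by
      rw [Finset.mem_insert, Finset.mem_map] at hj hj'
      rcases hj with rfl | ⟨i, hi, rfl⟩
      · rcases hj' with rfl | ⟨i, hi, rfl⟩
        · exact absurd rfl hjj
        · exact ⟨i, hi, hl'⟩
      · exact ⟨i, hi, hl⟩
    obtain ⟨i, hiS, hleaf⟩ := hex
    have hi0S' : i0 ∈ S' := Finset.mem_insert_self _ _
    have key : ∀ a, A.Touch S u w i a → K.Shared S' i.1 a := by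
      intro a ha
      rcases ha with ha | ha | ⟨j, hjS, hji, b, hb⟩
      · exact ⟨i0, hi0S', hne i.1 i.2, hπon' _ a0 ha⟩
      · exact ⟨i0, hi0S', hne i.1 i.2, hπon' _ a1 ha⟩
      · rcases hπinj _ _ hb with h | ⟨-, hb'⟩
        · refine ⟨j.1, ?_, fun h' => hji (Subtype.ext h'), b, h⟩
          exact Finset.mem_insert_of_mem (Finset.mem_map.2 ⟨j, hjS, rfl⟩)
        · exact ⟨i0, hi0S', hne i.1 i.2, hb'⟩
    exact ⟨i, hiS, fun a b ha hb => hleaf a b (key a ha) (key b hb)⟩
  · intro i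
    have h2 : (fun a => χ1 (A.e i a)) = fun a => χ1 (K.e i.1 a) := by
      funext a
      exact hχπ _
    rw [h2]
    exact hχ1 i.1 i.2
  · intro χ hχ
    refine hforce (χ u) (χ w) ⟨fun z => χ (π z), fun i hi => hχ ⟨i, hi⟩, ?_⟩
    intro a
    show χ (π (K.e i0 a)) = _
    rcases h : cl a with _ | _
    · rw [hπ0 a h]
      rfl
    · rw [hπ1 a h]
      rfl

end aux

/-- BEL2 -/
theorem exists_far {t : ℕ} (ht : 2 ≤ t) (ρ : Set (Fin t → Bool))
    (hcomp : ∀ s ∈ ρ, (fun a => !(s a)) ∈ ρ) (hconst : ∀ b : Bool, (fun _ => b) ∉ ρ)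
    (hτ : (fun a : Fin t => decide (a.val = t - 1)) ∈ ρ) (m : ℕ) (hm : 1 ≤ m)
    (K : Inst t) (hK : K.TwoLeaf (m + 1))
    (hcol : ∀ χ : K.Z → Bool, ∃ i : K.I, ∀ a b, χ (K.e i a) = χ (K.e i b)) :
    ∃ (A : Inst t) (u w : A.Z) (β : Bool), A.FarPair m u w ∧ (∃ χ, A.Sat ρ χ) ∧
      ∀ χ, A.Sat ρ χ → (χ u = χ w ↔ β = true) := by
  classical
  have hne0 : (⟨0, by omega⟩ : Fin t) ≠ ⟨t - 1, by omega⟩ := by
    intro h
    have := congrArg Fin.val h
    simp only at this
    omega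
  -- unsatisfiable collections
  have hun : ¬ ∃ χ : K.Z → Bool, ∀ i ∈ (Finset.univ : Finset K.I), (fun a => χ (K.e i a)) ∈ ρ := by
    rintro ⟨χ, hχ⟩
    obtain ⟨i, hi⟩ := hcol χ
    have h1 := hχ i (Finset.mem_univ i)
    have h2 : (fun a => χ (K.e i a)) = fun _ => χ (K.e i ⟨0, by omega⟩) := by
      funext a
      exact hi a _
    rw [h2] at h1
    exact hconst _ h1
  have hex : ∃ k : ℕ, ∃ C : Finset K.I, C.card = k ∧
      ¬ ∃ χ : K.Z → Bool, ∀ i ∈ C, (fun a => χ (K.e i a)) ∈ ρ := ⟨_, Finset.univ, rfl, hun⟩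
  obtain ⟨C, hCk, hC⟩ := Nat.find_spec hex
  have hmin : ∀ C' : Finset K.I, C'.card < Nat.find hex →
      ∃ χ : K.Z → Bool, ∀ i ∈ C', (fun a => χ (K.e i a)) ∈ ρ := by
    intro C' hC'
    by_contra hcon
    exact Nat.find_min hex hC' ⟨C', rfl, hcon⟩
  have hCne : C.Nonempty := by
    rw [Finset.nonempty_iff_ne_empty]
    rintro rfl
    exact hC ⟨fun _ => true, fun i hi => absurd hi (Finset.notMem_empty i)⟩
  obtain ⟨i0, hi0⟩ := hCne
  obtain ⟨χ0, hχ0⟩ := hmin (C.erase i0) (by rw [← hCk]; exact Finset.card_erase_lt_of_mem hi0)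
  have hnot : ∀ χ : K.Z → Bool, (∀ i ∈ C.erase i0, (fun a => χ (K.e i a)) ∈ ρ) →
      (fun a => χ (K.e i0 a)) ∉ ρ := by
    intro χ hχ hcon
    refine hC ⟨χ, fun i hi => ?_⟩
    by_cases h : i = i0
    · rw [h]
      exact hcon
    · exact hχ i (Finset.mem_erase.2 ⟨h, hi⟩)
  have hi0' : i0 ∉ C.erase i0 := Finset.notMem_erase i0 C
  by_cases hA : ∃ (v : Bool) (χ1 : K.Z → Bool), (∀ i ∈ C.erase i0, (fun a => χ1 (K.e i a)) ∈ ρ) ∧
      ∀ a, χ1 (K.e i0 a) = v
  · obtain ⟨v, χ1, hχ1, hv⟩ := hA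
    refine far_aux ρ m hm K hK (C.erase i0) i0 hi0' (fun a => decide (a.val = t - 1))
      ⟨0, by omega⟩ ⟨t - 1, by omega⟩ ?_ ?_ χ1 hχ1 (fun a a' _ => by rw [hv, hv]) true ?_
    · simp only [decide_eq_false_iff_not]
      omega
    · simp
    · rintro p q ⟨χ, hχ, hpat⟩
      refine ⟨fun _ => rfl, fun _ => ?_⟩
      have h1 := hnot χ hχ
      rcases p with _ | _ <;> rcases q with _ | _
      · rfl
      · exfalso
        apply h1
        have h2 : (fun a => χ (K.e i0 a)) = fun a : Fin t => decide (a.val = t - 1) := by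
          funext a
          rw [hpat]
          by_cases h : a.val = t - 1 <;> simp [h]
        rw [h2]
        exact hτ
      · exfalso
        apply h1
        have h2 : (fun a => χ (K.e i0 a)) = fun a : Fin t => !(decide (a.val = t - 1)) := by
          funext a
          rw [hpat]
          by_cases h : a.val = t - 1 <;> simp [h]
        rw [h2]
        exact hcomp _ hτ
      · rfl
  · have hnc : ∀ v : Bool, ∃ a, χ0 (K.e i0 a) ≠ v := by
      intro v
      by_contra hcon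
      push Not at hcon
      exact hA ⟨v, χ0, hχ0, hcon⟩
    obtain ⟨a0, ha0⟩ := hnc true
    obtain ⟨a1, ha1⟩ := hnc false
    refine far_aux ρ m hm K hK (C.erase i0) i0 hi0' (fun a => χ0 (K.e i0 a))
      a0 a1 (by simpa using ha0) (by simpa using ha1) χ0 hχ0 (fun a a' h => h) false ?_
    rintro p q ⟨χ, hχ, hpat⟩
    refine ⟨fun hpq => ?_, fun h => absurd h (by decide)⟩
    exfalso
    refine hA ⟨p, χ, hχ, fun a => ?_⟩
    rw [hpat, ← hpq]
    simp

end Pool.Agent.Helper5.BEL
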